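import Mathlib
import Pool.Agent.Helper65.HF.StC

/-!
Project HF, module UPB.
-/

namespace Pool.Agent.Helper45.HF

open Pool.Agent.Helper65.HF

theorem upb_card_le (M t : ℕ) : (srt M t).card ≤ M ^ t := by
  classical
  unfold srt
  refine le_trans (Finset.card_filter_le _ _) ?_
  refine le_trans Finset.card_image_le ?_
  rw [Finset.card_univ, Fintype.card_fun, Fintype.card_fin, Fintype.card_fin]

theorem upb_fact (N c : ℕ) : N ^ c ≤ (srt N c).card * c.factorial := by
  classical
  have h1 : (Finset.univ : Finset (Fin c → Fin N)).card ≤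
      ((srt N c) ×ˢ (Finset.univ : Finset (Equiv.Perm (Fin c)))).card := by
    refine Finset.card_le_card_of_injOn
      (fun f => (List.ofFn (fun i => ((f (Tuple.sort f i) : Fin N) : ℕ)), Tuple.sort f)) ?_ ?_
    · intro f _
      rw [Finset.mem_coe, Finset.mem_product]
      refine ⟨?_, Finset.mem_univ _⟩
      rw [mem_srt]
      refine ⟨List.length_ofFn, ?_, ?_⟩
      · show List.Pairwise (· ≤ ·) (List.ofFn (fun i => ((f (Tuple.sort f i) : Fin N) : ℕ)))
        rw [List.pairwise_ofFn]
        intro i j hij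
        exact Tuple.monotone_sort f (le_of_lt hij)
      · intro x hx
        rw [List.mem_ofFn] at hx
        obtain ⟨i, rfl⟩ := hx
        exact (f (Tuple.sort f i)).2
    · intro f _ g _ hfg
      have h2 : Tuple.sort f = Tuple.sort g := congrArg Prod.snd hfg
      have h1 := congrArg Prod.fst hfg
      have h3 := List.ofFn_injective h1
      funext i
      have h4 := congrFun h3 ((Tuple.sort f).symm i)
      rw [Equiv.apply_symm_apply] at h4
      rw [h2] at h4
      rw [Equiv.apply_symm_apply] at h4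
      exact Fin.ext h4
  rw [Finset.card_product, Finset.card_univ, Finset.card_univ, Fintype.card_fun, Fintype.card_fin,
    Fintype.card_fin, Fintype.card_perm, Fintype.card_fin] at h1
  exact h1

/-- All entries are at least `n`. -/
def GeL (n : ℕ) (v : List ℕ) : Prop := ∀ y ∈ v, n ≤ y

theorem upb_shift (M c ν0 : ℕ) :
    (srt (M - ν0) c).card ≤ num (srt M c) (GeL ν0) := by
  classical
  unfold num
  refine Finset.card_le_card_of_injOn (fun l => l.map (· + ν0)) ?_ ?_
  · intro l hl
    rw [Finset.mem_coe, mem_srt] at hl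
    rw [Finset.mem_coe, Finset.mem_filter, mem_srt]
    refine ⟨⟨by rw [List.length_map]; exact hl.1, ?_, ?_⟩, ?_⟩
    · show (l.map (· + ν0)).Pairwise (· ≤ ·)
      rw [List.pairwise_map]
      exact hl.2.1.imp (fun h => Nat.add_le_add_right h _)
    · intro x hx
      rw [List.mem_map] at hx
      obtain ⟨y, hy, rfl⟩ := hx
      have := hl.2.2 y hy
      show y + ν0 < M
      omega
    · intro x hx
      rw [List.mem_map] at hx
      obtain ⟨y, hy, rfl⟩ := hx
      exact Nat.le_add_left _ _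
  · intro l _ l' _ h
    exact List.map_injective_iff.2 (fun a b hab => Nat.add_right_cancel hab) h

theorem upb_last {p : List ℕ} (h : Srt p) : ∀ x ∈ p, x ≤ p.getLastD 0 := by
  intro x hx
  rcases List.eq_nil_or_concat p with rfl | ⟨l, b, rfl⟩
  · simp at hx
  · rw [List.concat_eq_append] at *
    rw [List.getLastD_concat]
    have h1 := (List.pairwise_append.1 h).2.2
    rw [List.mem_append] at hx
    rcases hx with hx | hx
    · exact h1 x hx b (by simp)
    · rw [List.mem_singleton] at hx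
      exact le_of_eq hx

theorem upb_lastD (p : List ℕ) : p.getLastD 0 = p.getD (p.length - 1) 0 := by
  rcases List.eq_nil_or_concat p with rfl | ⟨l, b, rfl⟩
  · simp
  · rw [List.concat_eq_append, List.getLastD_concat]
    simp

theorem upb_mem_last {p : List ℕ} (h : p ≠ []) : p.getLastD 0 ∈ p := by
  rcases List.eq_nil_or_concat p with rfl | ⟨l, b, rfl⟩
  · exact absurd rfl h
  · rw [List.concat_eq_append, List.getLastD_concat]
    simp

theorem upb_app {M i j t : ℕ} {ν : ℕ → ℕ} {p τ : List ℕ} (hp : p ∈ srt M i)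
    (hτ : τ ∈ tl M ν j t (p.getLastD 0)) : p ++ τ ∈ srt M (i + t) := by
  rw [mem_srt] at hp ⊢
  rw [mem_tl] at hτ
  refine ⟨by rw [List.length_append, hp.1, hτ.1.1], ?_, ?_⟩
  · show (p ++ τ).Pairwise (· ≤ ·)
    rw [List.pairwise_append]
    refine ⟨hp.2.1, hτ.1.2.1, ?_⟩
    intro a ha b hb
    exact le_trans (upb_last hp.2.1 a ha) (hτ.2.1 b hb)
  · intro x hx
    rw [List.mem_append] at hx
    rcases hx with hx | hx
    · exact hp.2.2 x hx
    · exact hτ.1.2.2 x hx

theorem upb_pre {St : List ℕ → Prop} (hPre : Pre St) (p τ : List ℕ) (h : Srt (p ++ τ))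
    (hs : St (p ++ τ)) : St p := by
  induction τ using List.reverseRecOn with
  | nil => simpa using hs
  | append_singleton l b ih =>
    rw [← List.append_assoc] at h hs
    exact ih (List.pairwise_append.1 h).1 (hPre _ _ h hs)

theorem upb_leL_ge {x : ℕ} {τ τ' : List ℕ} (h : LeL τ τ') (hx : ∀ y ∈ τ, x ≤ y) :
    ∀ y ∈ τ', x ≤ y := by
  induction h with
  | nil => intro y hy; simp at hy
  | cons h1 _ ih =>
    intro y hy
    rw [List.mem_cons] at hy
    rcases hy with rfl | hy
    · exact le_trans (hx _ (List.mem_cons_self)) h1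
    · exact ih (fun z hz => hx z (List.mem_cons_of_mem _ hz)) y hy

theorem upb_leL_refl (l : List ℕ) : LeL l l := by
  induction l with
  | nil => exact List.Forall₂.nil
  | cons a l ih => exact List.Forall₂.cons le_rfl ih

theorem upb_leL_app {a b c d : List ℕ} (h : LeL a b) (h' : LeL c d) : LeL (a ++ c) (b ++ d) := by
  induction h with
  | nil => exact h'
  | cons h1 _ ih => exact List.Forall₂.cons h1 ih

theorem upb_leL_const {p q : List ℕ} (n : ℕ) (hl : p.length = q.length) (hp : ∀ x ∈ p, x ≤ n)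
    (hq : ∀ x ∈ q, n ≤ x) : LeL p q := by
  induction p generalizing q with
  | nil =>
    cases q with
    | nil => exact List.Forall₂.nil
    | cons a q => simp at hl
  | cons a p ih =>
    cases q with
    | nil => simp at hl
    | cons b q =>
      refine List.Forall₂.cons ?_ ?_
      · exact le_trans (hp a List.mem_cons_self) (hq b List.mem_cons_self)
      · refine ih (by simpa using hl) ?_ ?_
        · intro x hx
          exact hp x (List.mem_cons_of_mem _ hx)
        · intro x hx
          exact hq x (List.mem_cons_of_mem _ hx)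

/-- The correlation step. -/
theorem upb_corr (hF : sFKG) {M c ν0 : ℕ} {ν : ℕ → ℕ} {U : List ℕ → Prop}
    (hν : ∀ s, ν s ≤ ν0)
    (hU : ∀ l ∈ srt M c, ∀ l' ∈ srt M c, LeL l l' → U l → U l')
    {i : ℕ} (hi1 : 1 ≤ i) (hic : i ≤ c) {p q : List ℕ} (hp : p ∈ irr M ν i)
    (hq : q ∈ tl M ν 0 i 0) (hq0 : ∀ y ∈ q, ν0 ≤ y) :
    num (tl M ν i (c - i) (p.getLastD 0)) (fun τ => U (p ++ τ)) *
      (tl M ν i (c - i) (q.getLastD 0)).card ≤
    (tl M ν i (c - i) (p.getLastD 0)).card *
      num (tl M ν i (c - i) (q.getLastD 0)) (fun τ => U (q ++ τ)) := by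
  classical
  have hpI := mem_irr.1 hp
  have hqT := mem_tl.1 hq
  have hpS : p ∈ srt M i := mem_srt.2 hpI.1
  have hqS : q ∈ srt M i := mem_srt.2 hqT.1
  have hplast : p.getLastD 0 < ν i := by
    rcases hpI.2 with h | h
    · omega
    · rw [upb_lastD, hpI.1.1]
      exact h
  have hpall : ∀ x ∈ p, x ≤ ν0 := by
    intro x hx
    have := upb_last hpI.1.2.1 x hx
    have := hν i
    omega
  have hqne : q ≠ [] := by
    intro h
    rw [h] at hqT
    have := hqT.1.1
    simp at this
    omega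
  have hqx : ν0 ≤ q.getLastD 0 := hq0 _ (upb_mem_last hqne)
  have hax : p.getLastD 0 ≤ q.getLastD 0 := by
    have := hν i
    omega
  have hpq : LeL p q := upb_leL_const ν0 (by rw [hpI.1.1, hqT.1.1]) hpall hq0
  have hk := hF M ν i (c - i) (p.getLastD 0) (fun τ => if U (p ++ τ) then 1 else 0)
    (fun τ => if GeL (q.getLastD 0) τ then 1 else 0) ?_ ?_ ?_ ?_
  · have e1 : (∑ τ ∈ tl M ν i (c - i) (p.getLastD 0), (if U (p ++ τ) then (1 : ℝ) else 0)) =
        (num (tl M ν i (c - i) (p.getLastD 0)) (fun τ => U (p ++ τ)) : ℝ) := by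
      rw [num_eq_sum, Nat.cast_sum]
      refine Finset.sum_congr rfl fun τ _ => ?_
      split_ifs <;> simp
    have e2 : (∑ τ ∈ tl M ν i (c - i) (p.getLastD 0),
        (if GeL (q.getLastD 0) τ then (1 : ℝ) else 0)) =
        ((tl M ν i (c - i) (q.getLastD 0)).card : ℝ) := by
      rw [← Finset.sum_filter, Finset.sum_const, nsmul_eq_mul, mul_one]
      congr 2
      ext τ
      rw [Finset.mem_filter, mem_tl, mem_tl]
      constructor
      · rintro ⟨⟨h1, h2, h3⟩, h4⟩
        exact ⟨h1, h4, h3⟩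
      · rintro ⟨h1, h4, h3⟩
        exact ⟨⟨h1, fun x hx => le_trans hax (h4 x hx), h3⟩, h4⟩
    have e3 : (∑ τ ∈ tl M ν i (c - i) (p.getLastD 0), (if U (p ++ τ) then (1 : ℝ) else 0) *
        (if GeL (q.getLastD 0) τ then (1 : ℝ) else 0)) ≤
        (num (tl M ν i (c - i) (q.getLastD 0)) (fun τ => U (q ++ τ)) : ℝ) := by
      have e4 : (∑ τ ∈ tl M ν i (c - i) (p.getLastD 0), (if U (p ++ τ) then (1 : ℝ) else 0) *
          (if GeL (q.getLastD 0) τ then (1 : ℝ) else 0)) =
          (((tl M ν i (c - i) (p.getLastD 0)).filter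
            (fun τ => U (p ++ τ) ∧ GeL (q.getLastD 0) τ)).card : ℝ) := by
        rw [Finset.card_filter, Nat.cast_sum]
        refine Finset.sum_congr rfl fun τ _ => ?_
        by_cases h1 : U (p ++ τ)
        · by_cases h2 : GeL (q.getLastD 0) τ
          · rw [if_pos h1, if_pos h2, if_pos ⟨h1, h2⟩]
            simp
          · rw [if_pos h1, if_neg h2, if_neg (fun h : U (p ++ τ) ∧ _ => h2 h.2)]
            simp
        · rw [if_neg h1, if_neg (fun h : U (p ++ τ) ∧ _ => h1 h.1)]
          simp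
      rw [e4]
      refine Nat.cast_le.2 ?_
      unfold num
      refine Finset.card_le_card ?_
      intro τ hτ
      rw [Finset.mem_filter] at hτ ⊢
      obtain ⟨hτ1, hτ2, hτ3⟩ := hτ
      have hτq : τ ∈ tl M ν i (c - i) (q.getLastD 0) := by
        rw [mem_tl] at hτ1 ⊢
        exact ⟨hτ1.1, hτ3, hτ1.2.2⟩
      refine ⟨hτq, ?_⟩
      have hs1 : p ++ τ ∈ srt M c := by
        have := upb_app hpS hτ1
        rwa [Nat.add_sub_cancel' hic] at this
      have hs2 : q ++ τ ∈ srt M c := by
        have := upb_app hqS hτq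
        rwa [Nat.add_sub_cancel' hic] at this
      exact hU _ hs1 _ hs2 (upb_leL_app hpq (upb_leL_refl τ)) hτ2
    rw [e1, e2] at hk
    have hk2 := le_trans hk (mul_le_mul_of_nonneg_left e3 (Nat.cast_nonneg _))
    exact_mod_cast hk2
  · intro τ _
    split_ifs <;> norm_num
  · intro τ _
    split_ifs <;> norm_num
  · intro τ hτ τ' hτ' hle
    have hs1 : p ++ τ ∈ srt M c := by
      have := upb_app hpS hτ
      rwa [Nat.add_sub_cancel' hic] at this
    have hs2 : p ++ τ' ∈ srt M c := by
      have := upb_app hpS hτ'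
      rwa [Nat.add_sub_cancel' hic] at this
    by_cases h1 : U (p ++ τ)
    · rw [if_pos h1, if_pos (hU _ hs1 _ hs2 (upb_leL_app (upb_leL_refl p) hle) h1)]
    · rw [if_neg h1]
      split_ifs <;> norm_num
  · intro τ hτ τ' hτ' hle
    by_cases h1 : GeL (q.getLastD 0) τ
    · rw [if_pos h1, if_pos (show GeL (q.getLastD 0) τ' from upb_leL_ge hle h1)]
    · rw [if_neg h1]
      split_ifs <;> norm_num

/-- The bound for one irregular start. -/
theorem upb_one (hF : sFKG) (hS : sSPL) {M c ν0 : ℕ} {ν : ℕ → ℕ} {U : List ℕ → Prop}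
    (hν : ∀ s, ν s ≤ ν0)
    (hU : ∀ l ∈ srt M c, ∀ l' ∈ srt M c, LeL l l' → U l → U l')
    {i : ℕ} (hi1 : 1 ≤ i) (hic : i ≤ c) {p : List ℕ} (hp : p ∈ irr M ν i) :
    num (tl M ν i (c - i) (p.getLastD 0)) (fun τ => U (p ++ τ)) * (M - ν0) ^ c ≤
      num (tl M ν 0 c 0) U * (M ^ (c - i) * c.factorial) := by
  classical
  set Up := num (tl M ν i (c - i) (p.getLastD 0)) (fun τ => U (p ++ τ)) with hUp
  have h1 : (M - ν0) ^ c ≤ num (srt M c) (GeL ν0) * c.factorial :=
    le_trans (upb_fact (M - ν0) c) (Nat.mul_le_mul_right _ (upb_shift M c ν0))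
  have h2 : num (srt M c) (GeL ν0) ≤
      num (tl M ν 0 c 0) (GeL ν0) := by
    unfold num
    refine Finset.card_le_card ?_
    intro v hv
    rw [Finset.mem_filter] at hv ⊢
    refine ⟨?_, hv.2⟩
    rw [mem_tl]
    refine ⟨mem_srt.1 hv.1, fun x _ => Nat.zero_le x, ?_⟩
    intro u hu
    have hl := (mem_srt.1 hv.1).1
    have : v.getD u 0 ∈ v := by
      rw [List.getD_eq_getElem _ _ (by omega)]
      exact List.getElem_mem _
    exact le_trans (hν _) (hv.2 _ this)
  have h3 : num (tl M ν 0 c 0) (GeL ν0) ≤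
      ∑ q ∈ tl M ν 0 i 0, (if GeL ν0 q then
        (tl M ν i (c - i) (q.getLastD 0)).card else 0) := by
    have h := hS M ν 0 i (c - i) 0 (GeL ν0)
    rw [Nat.add_sub_cancel' hic] at h
    rw [h]
    refine Finset.sum_le_sum fun q _ => ?_
    rw [Nat.zero_add]
    by_cases hq : GeL ν0 q
    · rw [if_pos hq]
      exact num_le_card _ _
    · rw [if_neg hq]
      refine le_of_eq ?_
      unfold num
      rw [Finset.card_eq_zero, Finset.filter_eq_empty_iff]
      intro σ _ hσ
      exact hq fun y hy => hσ y (List.mem_append_left _ hy)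
  have h4 : Up * (∑ q ∈ tl M ν 0 i 0, (if GeL ν0 q then
        (tl M ν i (c - i) (q.getLastD 0)).card else 0)) ≤
      (tl M ν i (c - i) (p.getLastD 0)).card * num (tl M ν 0 c 0) U := by
    have h := hS M ν 0 i (c - i) 0 U
    rw [Nat.add_sub_cancel' hic] at h
    rw [h, Finset.mul_sum, Finset.mul_sum]
    refine Finset.sum_le_sum fun q hq => ?_
    rw [Nat.zero_add]
    by_cases hq0 : GeL ν0 q
    · rw [if_pos hq0]
      exact upb_corr hF hν hU hi1 hic hp hq hq0
    · rw [if_neg hq0, Nat.mul_zero]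
      exact Nat.zero_le _
  have h5 : (tl M ν i (c - i) (p.getLastD 0)).card ≤ M ^ (c - i) := by
    refine le_trans (Finset.card_le_card ?_) (upb_card_le M (c - i))
    intro τ hτ
    exact mem_srt.2 (mem_tl.1 hτ).1
  calc Up * (M - ν0) ^ c ≤ Up * (num (srt M c) (GeL ν0) * c.factorial) :=
        Nat.mul_le_mul_left _ h1
    _ ≤ Up * ((∑ q ∈ tl M ν 0 i 0, (if GeL ν0 q then
        (tl M ν i (c - i) (q.getLastD 0)).card else 0)) * c.factorial) :=
        Nat.mul_le_mul_left _ (Nat.mul_le_mul_right _ (le_trans h2 h3))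
    _ = Up * (∑ q ∈ tl M ν 0 i 0, (if GeL ν0 q then
        (tl M ν i (c - i) (q.getLastD 0)).card else 0)) * c.factorial := by ring
    _ ≤ (tl M ν i (c - i) (p.getLastD 0)).card * num (tl M ν 0 c 0) U * c.factorial :=
        Nat.mul_le_mul_right _ h4
    _ ≤ M ^ (c - i) * num (tl M ν 0 c 0) U * c.factorial :=
        Nat.mul_le_mul_right _ (Nat.mul_le_mul_right _ h5)
    _ = num (tl M ν 0 c 0) U * (M ^ (c - i) * c.factorial) := by ring

theorem hUPB : Pool.Agent.Helper65.HF.sUPB := by
  classical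
  intro hF hS hD M c ν0 ν St U hc hν hM hPre hUS hU
  have h0 := hD M ν c U
  have hrange : Finset.range (c + 1) = insert 0 (Finset.Icc 1 c) := by
    ext x
    rw [Finset.mem_range, Finset.mem_insert, Finset.mem_Icc]
    omega
  rw [hrange, Finset.sum_insert (by rw [Finset.mem_Icc]; omega)] at h0
  have hz : ∑ p ∈ irr M ν 0,
      num (tl M ν 0 (c - 0) (p.getLastD 0)) (fun τ => U (p ++ τ)) = num (tl M ν 0 c 0) U := by
    have hi : irr M ν 0 = {[]} := by
      ext p
      rw [mem_irr, Finset.mem_singleton]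
      constructor
      · rintro ⟨⟨h, _⟩, _⟩
        exact List.length_eq_zero_iff.1 h
      · rintro rfl
        refine ⟨⟨rfl, List.Pairwise.nil, ?_⟩, Or.inl rfl⟩
        intro x hx
        simp at hx
    rw [hi, Finset.sum_singleton]
    rfl
  rw [hz] at h0
  rw [h0, Nat.add_mul, Nat.mul_add]
  refine Nat.add_le_add_left ?_ _
  rw [Finset.sum_mul, Finset.mul_sum]
  refine Finset.sum_le_sum fun i hi => ?_
  rw [Finset.mem_Icc] at hi
  obtain ⟨hi1, hic⟩ := hi
  rw [Finset.sum_mul]
  set K := num (tl M ν 0 c 0) U * (M ^ (c - i) * c.factorial) with hK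
  have hle : ∀ p ∈ irr M ν i,
      num (tl M ν i (c - i) (p.getLastD 0)) (fun τ => U (p ++ τ)) * (M - ν0) ^ c ≤ K :=
    fun p hp => upb_one hF hS hν hU hi1 hic hp
  have hzero : ∀ p ∈ irr M ν i, ¬ (p ∈ srt (ν i) i ∧ St p) →
      num (tl M ν i (c - i) (p.getLastD 0)) (fun τ => U (p ++ τ)) * (M - ν0) ^ c = 0 := by
    intro p hp hn
    have hpI := mem_irr.1 hp
    have hpS : p ∈ srt M i := mem_srt.2 hpI.1
    have hplast : p.getLastD 0 < ν i := by
      rcases hpI.2 with h | h
      · omega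
      · rw [upb_lastD, hpI.1.1]
        exact h
    have hps : p ∈ srt (ν i) i := by
      rw [mem_srt]
      refine ⟨hpI.1.1, hpI.1.2.1, ?_⟩
      intro x hx
      exact lt_of_le_of_lt (upb_last hpI.1.2.1 x hx) hplast
    have hnum : num (tl M ν i (c - i) (p.getLastD 0)) (fun τ => U (p ++ τ)) = 0 := by
      unfold num
      rw [Finset.card_eq_zero, Finset.filter_eq_empty_iff]
      intro τ hτ hUτ
      have hs1 : p ++ τ ∈ srt M c := by
        have := upb_app hpS hτ
        rwa [Nat.add_sub_cancel' hic] at this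
      exact hn ⟨hps, upb_pre hPre p τ (mem_srt.1 hs1).2.1 (hUS _ hs1 hUτ)⟩
    rw [hnum, Nat.zero_mul]
  have hsum : ∑ p ∈ irr M ν i,
      num (tl M ν i (c - i) (p.getLastD 0)) (fun τ => U (p ++ τ)) * (M - ν0) ^ c ≤
      num (srt (ν i) i) St * K := by
    rw [← Finset.sum_filter_add_sum_filter_not (irr M ν i) (fun p => p ∈ srt (ν i) i ∧ St p)]
    rw [Finset.sum_eq_zero (s := (irr M ν i).filter (fun p => ¬ (p ∈ srt (ν i) i ∧ St p)))
      (fun p hp => hzero p (Finset.mem_filter.1 hp).1 (Finset.mem_filter.1 hp).2), Nat.add_zero]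
    refine le_trans (Finset.sum_le_card_nsmul _ _ K
      (fun p hp => hle p (Finset.mem_filter.1 hp).1)) ?_
    rw [smul_eq_mul]
    refine Nat.mul_le_mul_right _ ?_
    unfold num
    refine Finset.card_le_card ?_
    intro p hp
    rw [Finset.mem_filter] at hp ⊢
    exact hp.2
  refine le_trans hsum (le_of_eq ?_)
  rw [hK]
  ring

end Pool.Agent.Helper45.HF
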